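import Mathlib
import Pool.Agent.H985.Cor.StmCor
import Pool.Agent.H985.Par.StmPar

/-!
# Chowla words against zero entropy actions; tails in sifted sets (helper985): statements
-/

namespace Pool.Agent.H985.Cor

open Polynomial Filter Topology
open scoped Classical
open Pool.Agent.H694.Typ (Mn mem_Mn card_Mn pol pol_degree pol_inj exists_pol)

/-- The elements of `U` are pairwise incongruent modulo `G`. -/
def Incong {K : Type} [Field K] (G : AddSubgroup K[X]) (U : Finset K[X]) : Prop :=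
  ∀ u ∈ U, ∀ v ∈ U, u ≠ v → u - v ∉ G

/-- The correlations of `a` vanish at shifts which are pairwise incongruent modulo `G`. -/
def ChowG {K : Type} [Field K] [Fintype K] (G : AddSubgroup K[X]) (a : K[X] → ℝ) : Prop :=
  ∀ A B : Finset K[X], A.Nonempty → Disjoint A B → Incong G (A ∪ B) →
    Tendsto (fun n : ℕ => (∑ f ∈ Mn K n, (∏ u ∈ A, a (f + u)) * ∏ u ∈ B, a (f + u) ^ 2) /
      (Fintype.card K : ℝ) ^ n) atTop (𝓝 0)

/-- **Task COR1G.**  (`S_cor1` is the case `G = ⊥`.) -/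
def S_cor1g : Prop :=
  ∀ (K : Type) [Field K] [Fintype K] (G : AddSubgroup K[X]) (a : K[X] → ℝ), Tri a → ChowG G a →
    ∀ (U : Finset K[X]) (V : Finset (K[X] → ℝ)), Incong G U → (∀ v ∈ V, ∀ u, |v u| ≤ 1) →
      ∀ δ η : ℝ, 0 < δ → 0 < η → ∃ n₀ : ℕ, ∀ n : ℕ, n₀ ≤ n →
        ((({f ∈ Mn K n | ∃ v ∈ V, δ * U.card < |∑ u ∈ U, a (f + u) * v u|} : Set K[X])).ncard : ℝ) ≤
          (2 * V.card * Real.exp (-(δ ^ 2 * U.card / 2)) + η) * (Fintype.card K : ℝ) ^ n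

/-- **Task COR2G.**  (`S_cor2` is the case `G = ⊥`.) -/
def S_cor2g : Prop :=
  ∀ (K : Type) [Field K] [Fintype K] (G : AddSubgroup K[X]), (G : Set K[X]).Finite →
    ∀ (a : K[X] → ℝ), Tri a → ChowG G a →
    ∀ (Y : Type) [MetricSpace Y] [CompactSpace Y] (T : K[X] → Y → Y),
      (∀ f g y, T (f + g) y = T f (T g y)) → (∀ f, Continuous (T f)) → ZeroEntropy T →
      ∀ φ : C(Y, ℂ), ∀ ε : ℝ, 0 < ε →
        (∃ n₀ : ℕ, ∀ n : ℕ, n₀ ≤ n → ∀ y : Y,
          ‖∑ f ∈ Mn K n, (a f : ℂ) * φ (T f y)‖ ≤ ε * (Fintype.card K : ℝ) ^ n) ∧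
        (∃ m₀ : ℕ, ∀ m : ℕ, m₀ ≤ m → ∃ n₀ : ℕ, ∀ n : ℕ, n₀ ≤ n →
          ∑ f ∈ Mn K n, (⨆ y : Y, ‖∑ u ∈ Bx K m, (a (f + u) : ℂ) * φ (T u y)‖) ≤
            ε * (Fintype.card K : ℝ) ^ m * (Fintype.card K : ℝ) ^ n)

end Pool.Agent.H985.Cor

namespace Pool.Agent.H985.Par

open Polynomial
open scoped Classical
open Pool.Agent.H694.Typ (Mn mem_Mn card_Mn)

/-- The monic `f` of degree `n` such that the `f + α i`, `i ∈ A`, have no irreducible factor of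
degree at most `m`. -/
noncomputable def SfsA (K : Type) [Field K] [Fintype K] {k : ℕ} (α : Fin k → K[X])
    (A : Finset (Fin k)) (n m : ℕ) : Finset K[X] :=
  (Mn K n).filter (fun f => ∀ i ∈ A, Sft m (f + α i))

/-- **Task TAIL.**  Few sifted `f` are such that some `f + α j` has a large square divisor
(`j` arbitrary, in `A` or not), relative to the sifted set. -/
def S_tail : Prop :=
  ∀ (K : Type) [Field K] [Fintype K] (k : ℕ) (ε : ℝ), 0 < ε → ∃ (G : ℕ) (κ : ℝ), 0 < κ ∧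
    ∃ m₀ n₀ : ℕ, ∀ n : ℕ, n₀ ≤ n → ∀ m : ℕ, m₀ ≤ m → (m : ℝ) ≤ κ * n →
      ∀ (α : Fin k → K[X]) (A : Finset (Fin k)), Function.Injective α →
      (∀ i, (α i).natDegree < n) → ∀ j : Fin k,
        (((SfsA K α A n m).filter (fun f => ∃ g : K[X], g.Monic ∧ G < g.natDegree ∧
          g ^ 2 ∣ f + α j)).card : ℝ) ≤ ε * (SfsA K α A n m).card

end Pool.Agent.H985.Par
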